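import Pool.Agent.helper45.SGK.Spec

/-!
# Row sk:LAB (MP_069684_lc, project SGK): the relation of a scope and the labels under sign changes
-/

set_option autoImplicit false

namespace Pool.Agent.SGK

open Finset Pool.Agent.helper38.Neg Pool.Agent.helper55.NT
open Pool.Agent.SGC (Sg SCirc Ext Mv hw RN Solv stA stB)

theorem LAB_z1 (a g : ZMod 2) : a + g + g = a := by revert a g; decide

theorem LAB_z2 (z g a : ZMod 2) : z + g + (a + g) = z + a := by revert z g a; decide

theorem LAB_z3 (c' c g C' C G : ZMod 2) (h : c' + c + g = C' + C + G) : c' + C' = c + C + g + G := by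
  revert c' c g C' C G; decide

theorem LAB_w1 {k : ℕ} (a g : Wd k) : a + g + g = a := funext fun j => LAB_z1 (a j) (g j)

theorem LAB_w2 {k : ℕ} (z g a : Wd k) : z + g + (a + g) = z + a := funext fun j => LAB_z2 (z j) (g j) (a j)

theorem LAB_mem {k : ℕ} (R : Finset (Wd k)) (d z : Wd k) : z ∈ shf R d ↔ z + d ∈ R := by
  unfold shf
  rw [Finset.mem_filter]
  exact ⟨fun h => h.2, fun h => ⟨Finset.mem_univ _, h⟩⟩

theorem LAB_comm {k : ℕ} (R : Finset (Wd k)) (d g : Wd k) : shf (shf R g) d = shf (shf R d) g := by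
  ext z
  rw [LAB_mem, LAB_mem, LAB_mem, LAB_mem, add_assoc, add_comm d g, ← add_assoc]

theorem LAB_inv {k : ℕ} (R : Finset (Wd k)) (g : Wd k) : shf (shf R g) g = R := by
  ext z
  rw [LAB_mem, LAB_mem, LAB_w1]

theorem LAB_per {k : ℕ} (R : Finset (Wd k)) (g d : Wd k) : Per (shf R g) d ↔ Per R d := by
  unfold Per
  constructor
  · intro h
    have h1 : shf (shf (shf R g) d) g = shf (shf R g) g := by rw [h]
    rw [LAB_comm (shf R g) g d, LAB_inv] at h1
    exact h1
  · intro h
    rw [LAB_comm, h]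

theorem LAB_oc {k : ℕ} (a b : Wd k) (J : Option (Fin k)) : oc (a + b) J = oc a J + oc b J := by
  cases J with
  | none => exact (add_zero 0).symm
  | some j => rfl

theorem LAB_gh {k t : ℕ} (γ : Sg t) (i : Fin k → Fin t) (J : Option (Fin k)) : oc (γ ∘ i : Wd k) J = gh γ (ov i J) := by
  cases J with
  | none => rfl
  | some j => exact (Fin.cons_succ (α := fun _ => ZMod 2) 0 γ (i j)).symm

/-- **LAB** -/
theorem LAB : LAB_stmt := by
  intro k _ cr P n γ x hcr
  have hrel : ∀ i : Fin k → Fin (tw k n), rel P (x ∘ gl γ) i = shf (rel P x i) (γ ∘ i) := by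
    intro i
    have hsg : ∀ a : Wd k, a ∈ sg (x ∘ gl γ) i ↔ a + (γ ∘ i : Wd k) ∈ sg x i := by
      intro a
      unfold sg
      rw [Finset.mem_filter, Finset.mem_filter, Function.comp_apply, gl_ps]
      exact ⟨fun h => ⟨Finset.mem_univ _, h.2⟩, fun h => ⟨Finset.mem_univ _, h.2⟩⟩
    have htr : ∀ (A : Finset (Wd k)) (z : Wd k), z ∈ tr P A ↔ ∀ a ∈ A, z + a ∈ P := by
      intro A z
      unfold tr
      rw [Finset.mem_filter]
      exact ⟨fun h => h.2, fun h => ⟨Finset.mem_univ _, h⟩⟩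
    ext z
    rw [LAB_mem]
    unfold rel
    rw [htr, htr]
    constructor
    · intro h a ha
      have h1 := h (a + (γ ∘ i : Wd k)) ((hsg _).mpr (by rw [LAB_w1]; exact ha))
      have h2 : z + (γ ∘ i : Wd k) + a = z + (a + (γ ∘ i : Wd k)) := by
        rw [add_assoc, add_comm (γ ∘ i : Wd k) a]
      rw [h2]
      exact h1
    · intro h a ha
      have h1 := h (a + (γ ∘ i : Wd k)) ((hsg a).mp ha)
      rw [LAB_w2] at h1
      exact h1
  refine ⟨hrel, ?_⟩
  intro e
  unfold lab
  rw [hrel e.1]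
  have hper : (∀ d, Per (shf (rel P x e.1) (γ ∘ e.1)) d → oc d (some e.2.1) = oc d e.2.2) ↔
      ∀ d, Per (rel P x e.1) d → oc d (some e.2.1) = oc d e.2.2 := by
    constructor
    · intro h d hd
      exact h d ((LAB_per _ _ d).mpr hd)
    · intro h d hd
      exact h d ((LAB_per _ _ d).mp hd)
  by_cases hc : ∀ d, Per (rel P x e.1) d → oc d (some e.2.1) = oc d e.2.2
  · rw [if_pos hc, if_pos (hper.mpr hc), Option.map_some]
    have h1 := hc _ (hcr (rel P x e.1) (γ ∘ e.1))
    rw [LAB_oc, LAB_oc, LAB_oc, LAB_oc, LAB_gh, LAB_gh] at h1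
    exact congrArg some (LAB_z3 _ _ _ _ _ _ h1)
  · rw [if_neg hc, if_neg (fun h => hc (hper.mp h)), Option.map_none]

end Pool.Agent.SGK
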