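import Pool.Agent.helper45.SGK.Spec

/-!
# Row sk:TSA (MP_069684_lc, project SGK): the criterion for 2SAT
-/

set_option autoImplicit false

namespace Pool.Agent.SGK

open Finset Pool.Agent.helper38.Neg Pool.Agent.helper55.NT
open Pool.Agent.SGC (Sg SCirc Ext Mv hw RN Solv stA stB)

theorem TSA_add (b : ZMod 2) : b + 1 + 1 = b := by revert b; decide

theorem TSA_ne (a b : ZMod 2) (h : a ≠ b + 1) : a = b := by revert a b; decide

theorem TSA_two (b : ZMod 2) : b = 0 ∨ b = 1 := by revert b; decide

/-- **TSA** -/
theorem TSA : TSA_stmt := by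
  intro t N hN
  set I : Fin t × ZMod 2 → Fin t × ZMod 2 → Prop := fun u v => N u (v.1, v.2 + 1) with hI
  have negneg : ∀ u : Fin t × ZMod 2, ((u.1, u.2 + 1 + 1) : Fin t × ZMod 2) = u := by
    intro u
    rw [TSA_add]
  have hcon1 : ∀ u v : Fin t × ZMod 2, I u v → I (v.1, v.2 + 1) (u.1, u.2 + 1) := by
    intro u v h
    show N (v.1, v.2 + 1) (u.1, u.2 + 1 + 1)
    rw [negneg u]
    exact hN _ _ h
  have hcon : ∀ u v : Fin t × ZMod 2, Relation.ReflTransGen I u v →
      Relation.ReflTransGen I (v.1, v.2 + 1) (u.1, u.2 + 1) := by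
    intro u v h
    induction h with
    | refl => exact Relation.ReflTransGen.refl
    | tail _ hbc ih => exact Relation.ReflTransGen.head (hcon1 _ _ hbc) ih
  constructor
  · rintro ⟨α, hα⟩ q ⟨h01, h10⟩
    have hstep : ∀ u v : Fin t × ZMod 2, Relation.ReflTransGen I u v → α u.1 = u.2 → α v.1 = v.2 := by
      intro u v h hu
      induction h with
      | refl => exact hu
      | tail _ hbc ih => exact TSA_ne _ _ fun he => hα _ _ hbc ⟨ih, he⟩
    rcases TSA_two (α q) with h | h
    · have h1 := hstep _ _ h01 h
      simp only at h1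
      rw [h] at h1
      exact absurd h1 (by decide)
    · have h1 := hstep _ _ h10 h
      simp only at h1
      rw [h] at h1
      exact absurd h1 (by decide)
  · intro hq
    classical
    let good : Set (Set (Fin t × ZMod 2)) :=
      {D | (∀ u v, u ∈ D → Relation.ReflTransGen I u v → v ∈ D) ∧ ∀ u : Fin t × ZMod 2, u ∈ D → (u.1, u.2 + 1) ∉ D}
    have hne : good.Nonempty := ⟨∅, fun u v hu _ => absurd hu (Set.notMem_empty u), fun u hu => absurd hu (Set.notMem_empty u)⟩
    obtain ⟨D, hD⟩ := (Set.toFinite good).exists_maximal hne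
    obtain ⟨⟨hcl, hcons⟩, hmax⟩ := hD
    have hcomp : ∀ q : Fin t, (q, (0 : ZMod 2)) ∈ D ∨ (q, (1 : ZMod 2)) ∈ D := by
      intro q
      by_contra hno
      push Not at hno
      have hex : ∃ u : Fin t × ZMod 2, u.1 = q ∧ ¬ Relation.ReflTransGen I u (u.1, u.2 + 1) := by
        by_contra hall
        push Not at hall
        refine hq q ⟨?_, ?_⟩
        · have := hall (q, 0) rfl
          simpa using this
        · have := hall (q, 1) rfl
          have h2 : ((1 : ZMod 2) + 1) = 0 := by decide
          simpa [h2] using this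
      obtain ⟨u, hu, huR⟩ := hex
      have hund : ∀ v : Fin t × ZMod 2, v.1 = q → v ∉ D := by
        rintro ⟨v1, v2⟩ hv hvD
        simp only at hv
        subst hv
        rcases TSA_two v2 with h | h
        · rw [h] at hvD; exact hno.1 hvD
        · rw [h] at hvD; exact hno.2 hvD
      have hD' : (D ∪ {v | Relation.ReflTransGen I u v}) ∈ good := by
        refine ⟨?_, ?_⟩
        · intro x y hx hxy
          rcases hx with hx | hx
          · exact Or.inl (hcl x y hx hxy)
          · exact Or.inr (Relation.ReflTransGen.trans hx hxy)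
        · intro v hv hnv
          have hRv : Relation.ReflTransGen I u (v.1, v.2 + 1) → Relation.ReflTransGen I v (u.1, u.2 + 1) := by
            intro h
            have := hcon _ _ h
            simp only at this
            rwa [negneg v] at this
          rcases hv with hv | hv
          · rcases hnv with hnv | hnv
            · exact hcons v hv hnv
            · exact hund (u.1, u.2 + 1) hu (hcl _ _ hv (hRv hnv))
          · rcases hnv with hnv | hnv
            · exact hund (u.1, u.2 + 1) hu (hcl _ _ hnv (hcon _ _ hv))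
            · exact huR (Relation.ReflTransGen.trans hv (hRv hnv))
      have hsub := hmax hD' (Set.subset_union_left)
      exact hund u hu (hsub (Or.inr Relation.ReflTransGen.refl))
    refine ⟨fun q => if (q, (1 : ZMod 2)) ∈ D then 1 else 0, ?_⟩
    have hmem : ∀ u : Fin t × ZMod 2, (if (u.1, (1 : ZMod 2)) ∈ D then (1 : ZMod 2) else 0) = u.2 → u ∈ D := by
      rintro ⟨q, b⟩ h
      simp only at h
      by_cases h1 : (q, (1 : ZMod 2)) ∈ D
      · rw [if_pos h1] at h
        rw [← h]; exact h1
      · rw [if_neg h1] at h
        rw [← h]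
        rcases hcomp q with h0 | h0
        · exact h0
        · exact absurd h0 h1
    rintro u v hNuv ⟨hu, hv⟩
    have huD := hmem u hu
    have hvD := hmem v hv
    have hImp : I u (v.1, v.2 + 1) := by
      show N u (v.1, v.2 + 1 + 1)
      rw [negneg v]
      exact hNuv
    exact hcons v hvD (hcl _ _ huD (Relation.ReflTransGen.single hImp))

end Pool.Agent.SGK
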